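import Mathlib

namespace Pool.Agent.Results.MP_bbacab_nt.AmpleCoprime

open Finset

/-- The number of recursive divisors: `a 1 = 1` and
`a n = 1 + ∑ a m` over the divisors `m` of `n` with `m < n`. -/
def a (n : ℕ) : ℕ :=
  1 + ∑ m ∈ n.properDivisors.attach, a m.1
termination_by n
decreasing_by exact (Nat.mem_properDivisors.1 m.2).2

/-- `n` is ample if it is positive and `a n > n`. -/
def Ample (n : ℕ) : Prop := 0 < n ∧ n < a n

/-- The product `p_1 p_2 ⋯ p_k` of the first `k` primes. -/
noncomputable def firstPrimesProd (k : ℕ) : ℕ := ∏ i ∈ Finset.range k, Nat.nth Nat.Prime i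

theorem a_eq (n : ℕ) : a n = 1 + ∑ m ∈ n.properDivisors, a m := by
  rw [a]
  congr 1
  exact Finset.sum_attach n.properDivisors a

theorem a_one : a 1 = 1 := by
  rw [a_eq]; simp

theorem a_ten : a 10 = 6 := by
  have h2 : a 2 = 2 := by
    rw [a_eq, show Nat.properDivisors 2 = {1} by decide]; simp [a_one]
  have h5 : a 5 = 2 := by
    rw [a_eq, show Nat.properDivisors 5 = {1} by decide]; simp [a_one]
  rw [a_eq, show Nat.properDivisors 10 = {1, 2, 5} by decide]
  simp [a_one, h2, h5]

/-- `a n ≥ ∑ a (n / p)` over the primes `p` of a finite set dividing `n`. -/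
theorem a_ge_sum (P : Finset ℕ) (hP : ∀ p ∈ P, p.Prime) (n : ℕ) (hn : n ≠ 0) :
    ∑ p ∈ P with p ∣ n, a (n / p) ≤ a n := by
  rw [a_eq n]
  have hinj : Set.InjOn (fun p => n / p) (↑(P.filter (fun p => p ∣ n)) : Set ℕ) := by
    intro p hp q hq h
    simp only [Finset.coe_filter, Set.mem_ofPred_eq] at hp hq
    simp only at h
    have h1 : n = p * (n / p) := (Nat.mul_div_cancel' hp.2).symm
    have h2 : n = q * (n / q) := (Nat.mul_div_cancel' hq.2).symm
    have h3 : n / p ≠ 0 := by
      intro h0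
      rw [h0] at h1
      simp at h1
      exact hn h1
    have h4 : p * (n / p) = q * (n / p) := by
      rw [← h1]
      rw [h]
      exact h2
    exact Nat.eq_of_mul_eq_mul_right (Nat.pos_of_ne_zero h3) h4
  calc ∑ p ∈ P with p ∣ n, a (n / p)
      = ∑ m ∈ (P.filter (fun p => p ∣ n)).image (fun p => n / p), a m := by
        rw [Finset.sum_image]
        intro p hp q hq h
        exact hinj hp hq h
    _ ≤ ∑ m ∈ n.properDivisors, a m := by
        apply Finset.sum_le_sum_of_subset
        intro m hm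
        simp only [Finset.mem_image, Finset.mem_filter] at hm
        obtain ⟨p, ⟨hpP, hpn⟩, rfl⟩ := hm
        rw [Nat.mem_properDivisors]
        exact ⟨Nat.div_dvd_of_dvd hpn,
          Nat.div_lt_self (Nat.pos_of_ne_zero hn) (hP p hpP).one_lt⟩
    _ ≤ 1 + ∑ m ∈ n.properDivisors, a m := Nat.le_add_left _ _

/-- The products of exactly `j` primes from `P`. -/
def T (P : Finset ℕ) : ℕ → Finset ℕ
  | 0 => {1}
  | j + 1 => (P ×ˢ T P j).image (fun x => x.1 * x.2)

theorem T_pos (P : Finset ℕ) (hP : ∀ p ∈ P, p.Prime) (j : ℕ) : ∀ n ∈ T P j, n ≠ 0 := by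
  induction j with
  | zero => intro n hn; simp [T] at hn; omega
  | succ j ih =>
    intro n hn
    simp only [T, Finset.mem_image, Finset.mem_product] at hn
    obtain ⟨⟨p, m⟩, ⟨hp, hm⟩, rfl⟩ := hn
    exact mul_ne_zero (hP p hp).ne_zero (ih m hm)

theorem T_coprime (P : Finset ℕ) (N : ℕ) (hPN : ∀ p ∈ P, p.Coprime N) (j : ℕ) :
    ∀ n ∈ T P j, n.Coprime N := by
  induction j with
  | zero => intro n hn; simp [T] at hn; subst hn; simp
  | succ j ih =>
    intro n hn
    simp only [T, Finset.mem_image, Finset.mem_product] at hn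
    obtain ⟨⟨p, m⟩, ⟨hp, hm⟩, rfl⟩ := hn
    exact Nat.Coprime.mul_left (hPN p hp) (ih m hm)

theorem T_card (P : Finset ℕ) (j : ℕ) : (T P j).card ≤ (j + 1) ^ P.card := by
  classical
  have hsub : T P j ⊆ (Fintype.piFinset (fun _ : P => Finset.range (j + 1))).image
      (fun e => ∏ p : P, (p : ℕ) ^ e p) := by
    induction j with
    | zero =>
      intro n hn
      simp only [T, Finset.mem_singleton] at hn
      subst hn
      rw [Finset.mem_image]
      refine ⟨fun _ => 0, ?_, ?_⟩
      · rw [Fintype.mem_piFinset]; intro p; simp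
      · simp
    | succ j ih =>
      intro n hn
      simp only [T, Finset.mem_image, Finset.mem_product] at hn
      obtain ⟨⟨p, m⟩, ⟨hp, hm⟩, rfl⟩ := hn
      have := ih hm
      rw [Finset.mem_image] at this
      obtain ⟨e, he, hem⟩ := this
      rw [Fintype.mem_piFinset] at he
      rw [Finset.mem_image]
      refine ⟨fun q => e q + (if q = ⟨p, hp⟩ then 1 else 0), ?_, ?_⟩
      · rw [Fintype.mem_piFinset]
        intro q
        have := he q
        rw [Finset.mem_range] at this ⊢
        split_ifs <;> omega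
      · simp only [pow_add, Finset.prod_mul_distrib]
        rw [hem]
        have : ∏ q : P, (q : ℕ) ^ (if q = ⟨p, hp⟩ then 1 else 0) = p := by
          rw [Finset.prod_eq_single (⟨p, hp⟩ : P)]
          · simp
          · intro q _ hq; simp [hq]
          · intro h; exact absurd (Finset.mem_univ _) h
        rw [this, mul_comm]
  calc (T P j).card ≤ _ := Finset.card_le_card hsub
    _ ≤ (Fintype.piFinset (fun _ : P => Finset.range (j + 1))).card := Finset.card_image_le
    _ = (j + 1) ^ P.card := by simp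

theorem step (P : Finset ℕ) (hP : ∀ p ∈ P, p.Prime) (j : ℕ) :
    (∑ p ∈ P, (1 : ℝ) / p) * ∑ n ∈ T P j, (a n : ℝ) / n ≤ ∑ n ∈ T P (j + 1), (a n : ℝ) / n := by
  classical
  have h1 : ∑ n ∈ T P (j + 1), ∑ p ∈ P with p ∣ n, (a (n / p) : ℝ) / n ≤
      ∑ n ∈ T P (j + 1), (a n : ℝ) / n := by
    apply Finset.sum_le_sum
    intro n hn
    rw [← Finset.sum_div]
    apply div_le_div_of_nonneg_right _ (Nat.cast_nonneg n)
    have := a_ge_sum P hP n (T_pos P hP (j + 1) n hn)
    exact_mod_cast this
  refine le_trans ?_ h1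
  have h2 : ∑ n ∈ T P (j + 1), ∑ p ∈ P with p ∣ n, (a (n / p) : ℝ) / n =
      ∑ p ∈ P, ∑ n ∈ T P (j + 1) with p ∣ n, (a (n / p) : ℝ) / n := by
    simp only [Finset.sum_filter]
    rw [Finset.sum_comm]
  rw [h2, Finset.sum_mul]
  apply Finset.sum_le_sum
  intro p hp
  have hp0 : (p : ℝ) ≠ 0 := by exact_mod_cast (hP p hp).ne_zero
  have hp0' : 0 < p := (hP p hp).pos
  calc 1 / (p : ℝ) * ∑ n ∈ T P j, (a n : ℝ) / n
      = ∑ m ∈ T P j, (a ((p * m) / p) : ℝ) / ((p * m : ℕ) : ℝ) := by
        rw [Finset.mul_sum]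
        apply Finset.sum_congr rfl
        intro m hm
        rw [Nat.mul_div_cancel_left m hp0']
        push_cast
        rw [div_mul_div_comm, one_mul]
    _ = ∑ n ∈ (T P j).image (fun m => p * m), (a (n / p) : ℝ) / n := by
        rw [Finset.sum_image]
        intro x _ y _ h
        exact Nat.eq_of_mul_eq_mul_left hp0' h
    _ ≤ ∑ n ∈ T P (j + 1) with p ∣ n, (a (n / p) : ℝ) / n := by
        apply Finset.sum_le_sum_of_subset_of_nonneg
        · intro n hn
          rw [Finset.mem_image] at hn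
          obtain ⟨m, hm, rfl⟩ := hn
          rw [Finset.mem_filter]
          refine ⟨?_, Dvd.intro _ rfl⟩
          simp only [T, Finset.mem_image, Finset.mem_product]
          exact ⟨(p, m), ⟨hp, hm⟩, rfl⟩
        · intro n _ _
          positivity

theorem lower (P : Finset ℕ) (hP : ∀ p ∈ P, p.Prime) (j : ℕ) :
    (∑ p ∈ P, (1 : ℝ) / p) ^ j ≤ ∑ n ∈ T P j, (a n : ℝ) / n := by
  induction j with
  | zero => simp [T, a_one]
  | succ j ih =>
    have h0 : 0 ≤ ∑ p ∈ P, (1 : ℝ) / p := Finset.sum_nonneg (fun p _ => by positivity)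
    calc (∑ p ∈ P, (1 : ℝ) / p) ^ (j + 1)
        = (∑ p ∈ P, (1 : ℝ) / p) * (∑ p ∈ P, (1 : ℝ) / p) ^ j := by ring
      _ ≤ (∑ p ∈ P, (1 : ℝ) / p) * ∑ n ∈ T P j, (a n : ℝ) / n :=
          mul_le_mul_of_nonneg_left ih h0
      _ ≤ _ := step P hP j

/-- Above any bound there is a finite set of primes with reciprocal sum larger than one. -/
theorem exists_primes (B : ℕ) : ∃ P : Finset ℕ, (∀ p ∈ P, p.Prime ∧ B < p) ∧
    1 < ∑ p ∈ P, (1 : ℝ) / p := by
  classical
  by_contra hcon
  push Not at hcon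
  have hsum : Summable ({p : ℕ | p.Prime ∧ B < p}.indicator (fun n : ℕ => (1 : ℝ) / n)) := by
    apply summable_of_sum_le (c := 1)
    · intro n
      apply Set.indicator_nonneg
      intro m _
      positivity
    · intro u
      have h := hcon (u.filter (fun p => p.Prime ∧ B < p)) (fun p hp => (Finset.mem_filter.1 hp).2)
      refine le_trans (le_of_eq ?_) h
      rw [Finset.sum_filter]
      apply Finset.sum_congr rfl
      intro x _
      simp only [Set.indicator_apply, Set.mem_ofPred_eq]
  have hfin : Summable ({p : ℕ | p.Prime ∧ p ≤ B}.indicator (fun n : ℕ => (1 : ℝ) / n)) := by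
    apply summable_of_hasFiniteSupport
    apply Set.Finite.subset (Set.finite_Iic B)
    intro x hx
    rw [Function.mem_support] at hx
    by_contra hxB
    apply hx
    apply Set.indicator_of_notMem
    intro h
    exact hxB h.2
  apply not_summable_one_div_on_primes
  have := hsum.add hfin
  refine this.congr ?_
  intro n
  simp only [Set.indicator_apply, Set.mem_ofPred_eq]
  by_cases h1 : n.Prime
  · by_cases h2 : B < n
    · simp [h1, h2, not_le.2 h2]
    · simp [h1, h2, not_lt.1 h2]
  · simp [h1]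

/-- **Answer to Q1.** For every `k ≥ 1` there is an ample number coprime to the product of the
first `k` primes. -/
theorem result : ∀ k : ℕ, 1 ≤ k → ∃ n : ℕ, Ample n ∧ Nat.gcd n (firstPrimesProd k) = 1 := by
  intro k _
  obtain ⟨P, hP, hX⟩ := exists_primes (firstPrimesProd k)
  have hPp : ∀ p ∈ P, p.Prime := fun p hp => (hP p hp).1
  have hpos : 0 < firstPrimesProd k := by
    apply Finset.prod_pos
    intro i _
    exact (Nat.prime_nth_prime i).pos
  have hcop : ∀ p ∈ P, p.Coprime (firstPrimesProd k) := by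
    intro p hp
    rw [Nat.Prime.coprime_iff_not_dvd (hPp p hp)]
    intro hdvd
    exact absurd (Nat.le_of_dvd hpos hdvd) (not_le.2 (hP p hp).2)
  set X : ℝ := ∑ p ∈ P, (1 : ℝ) / p with hXdef
  -- exponential beats polynomial
  have hlim : ∃ j : ℕ, ((j : ℝ) + 1) ^ P.card < X ^ j := by
    have h1 := tendsto_pow_const_div_const_pow_of_one_lt P.card hX
    have h2 : ∀ᶠ j : ℕ in Filter.atTop, (j : ℝ) ^ P.card / X ^ j < 1 / X :=
      h1.eventually_lt_const (by positivity)
    obtain ⟨j, hj1, hj2⟩ := (h2.and (Filter.eventually_ge_atTop 1)).exists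
    refine ⟨j - 1, ?_⟩
    have hX0 : 0 < X := by positivity
    have hXj : 0 < X ^ j := by positivity
    rw [div_lt_div_iff₀ hXj hX0] at hj1
    have hj3 : ((j - 1 : ℕ) : ℝ) + 1 = j := by
      have : (j - 1) + 1 = j := by omega
      exact_mod_cast this
    rw [hj3]
    have hj4 : X ^ j = X ^ (j - 1) * X := by
      rw [← pow_succ]; congr 1; omega
    rw [hj4, one_mul] at hj1
    exact lt_of_mul_lt_mul_right hj1 hX0.le
  obtain ⟨j, hj⟩ := hlim
  have hlow := lower P hPp j
  rw [← hXdef] at hlow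
  by_contra hcon
  push Not at hcon
  have hup : ∑ n ∈ T P j, (a n : ℝ) / n ≤ ((j : ℝ) + 1) ^ P.card := by
    calc ∑ n ∈ T P j, (a n : ℝ) / n ≤ ∑ n ∈ T P j, (1 : ℝ) := by
          apply Finset.sum_le_sum
          intro n hn
          have hn0 : 0 < n := Nat.pos_of_ne_zero (T_pos P hPp j n hn)
          have hc : Nat.gcd n (firstPrimesProd k) = 1 := T_coprime P _ hcop j n hn
          have hle : a n ≤ n := by
            by_contra hlt
            exact hcon n ⟨hn0, not_le.1 hlt⟩ hc
          rw [div_le_one (by exact_mod_cast hn0)]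
          exact_mod_cast hle
      _ = ((T P j).card : ℝ) := by simp
      _ ≤ ((j : ℝ) + 1) ^ P.card := by exact_mod_cast T_card P j
  linarith

end Pool.Agent.Results.MP_bbacab_nt.AmpleCoprime
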